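import Pool.Agent.Y766.R11.Stm2
import Pool.Agent.Y766.ZA
import Pool.Agent.Y766.ZC
import Pool.Agent.Y766.R3.TE
import Pool.Agent.Y907.R11.JenTrv

/-!
Project R11 (helper766), job FMX: the mollified mean square for `Re s ≤ 10`, by interpolation.
-/

set_option autoImplicit false

namespace Pool.Agent.Y756.R11

open Finset Complex
open Pool.Agent.Y766.R11 Pool.Agent.Y766
open Pool.Agent.Y766.R10 (mw)

lemma mw_comb {q κ : ℝ} (hq : 1 < q) (hκ : 0 < κ) (l : ℕ) :
    |2 * mw q κ l - mw q (κ / 2) l| ≤ 1 ∧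
    ((l : ℝ) ≤ q ^ (κ / 2) →
      2 * mw q κ l - mw q (κ / 2) l = (ArithmeticFunction.moebius l : ℝ)) := by
  have hL : 0 < Real.log q := Real.log_pos hq
  have hle : q ^ (κ / 2) ≤ q ^ κ := Real.rpow_le_rpow_of_exponent_le hq.le (by linarith)
  have hmu : |(ArithmeticFunction.moebius l : ℝ)| ≤ 1 := by
    have := ArithmeticFunction.abs_moebius_le_one (n := l)
    exact_mod_cast this
  have h1 : (l : ℝ) ≤ q ^ (κ / 2) →
      2 * mw q κ l - mw q (κ / 2) l = (ArithmeticFunction.moebius l : ℝ) := by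
    intro h
    unfold mw
    rw [if_pos h, if_pos (h.trans hle)]
    field_simp
    ring
  refine ⟨?_, h1⟩
  by_cases h : (l : ℝ) ≤ q ^ (κ / 2)
  · rw [h1 h]; exact hmu
  · by_cases h2 : (l : ℝ) ≤ q ^ κ
    · unfold mw
      rw [if_neg h, if_pos h2, sub_zero]
      push Not at h
      have hq0 : 0 < q := by linarith
      have hl0 : (0 : ℝ) < l := lt_trans (by positivity) h
      have h3 : κ / 2 * Real.log q ≤ Real.log l := by
        rw [← Real.log_rpow hq0]
        exact Real.log_le_log (by positivity) h.le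
      have h4 : Real.log l ≤ κ * Real.log q := by
        rw [← Real.log_rpow hq0]
        exact Real.log_le_log hl0 h2
      have h5 : |2 * (1 - Real.log l / (κ * Real.log q))| ≤ 1 := by
        have h6 : 1 / 2 ≤ Real.log l / (κ * Real.log q) := by
          rw [le_div_iff₀ (by positivity)]; linarith
        have h7 : Real.log l / (κ * Real.log q) ≤ 1 := by
          rw [div_le_one (by positivity)]; exact h4
        rw [abs_le]
        constructor <;> linarith
      have h8 : 2 * ((ArithmeticFunction.moebius l : ℝ) * (1 - Real.log l / (κ * Real.log q))) =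
          (ArithmeticFunction.moebius l : ℝ) * (2 * (1 - Real.log l / (κ * Real.log q))) := by
        ring
      rw [h8, abs_mul]
      calc _ ≤ (1 : ℝ) * 1 := mul_le_mul hmu h5 (abs_nonneg _) zero_le_one
        _ = 1 := one_mul _
    · unfold mw
      rw [if_neg h, if_neg h2]
      simp

/-- the coefficients of the mollifier -/
noncomputable def bb {q : ℕ} (χ : DirichletCharacter ℂ q) (κ : ℝ) (l : ℕ) : ℂ :=
  ((2 * mw q κ l - mw q (κ / 2) l : ℝ) : ℂ) * χ (l : ZMod q)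

lemma bb_norm {q : ℕ} (hq : 1 < q) (χ : DirichletCharacter ℂ q) {κ : ℝ} (hκ : 0 < κ) (l : ℕ) :
    ‖bb χ κ l‖ ≤ 1 := by
  unfold bb
  rw [norm_mul, Complex.norm_real, Real.norm_eq_abs]
  have h1 := (mw_comb (q := q) (by exact_mod_cast hq) hκ l).1
  calc _ ≤ (1 : ℝ) * 1 := mul_le_mul h1 (χ.norm_le_one _) (norm_nonneg _) zero_le_one
    _ = 1 := one_mul _

lemma MP_eq {q : ℕ} (hq : 1 < q) (χ : DirichletCharacter ℂ q) {κ : ℝ} (hκ : 0 < κ) (s : ℂ) :
    MP χ κ s = mol (bb χ κ) ⌊(q : ℝ) ^ κ⌋₊ s := by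
  have hq1 : (1 : ℝ) ≤ q := by exact_mod_cast hq.le
  have hle : (q : ℝ) ^ (κ / 2) ≤ (q : ℝ) ^ κ :=
    Real.rpow_le_rpow_of_exponent_le hq1 (by linarith)
  have e : MS χ (κ / 2) s = ∑ l ∈ Icc 1 ⌊(q : ℝ) ^ κ⌋₊,
      (mw q (κ / 2) l : ℂ) * (χ (l : ZMod q) * (l : ℂ) ^ (-s)) := by
    unfold MS
    apply sum_subset (Icc_subset_Icc_right (Nat.floor_mono hle))
    intro l hl hl'
    have h1 : ¬ (l : ℝ) ≤ (q : ℝ) ^ (κ / 2) := by
      intro h
      apply hl'
      rw [mem_Icc] at hl ⊢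
      exact ⟨hl.1, Nat.le_floor h⟩
    unfold mw
    rw [if_neg h1]
    simp
  unfold MP
  rw [e]
  unfold MS mol
  rw [mul_sum, ← sum_sub_distrib]
  refine sum_congr rfl fun l _ => ?_
  unfold bb
  push_cast
  ring

lemma mol_bb {q : ℕ} (hq : 1 < q) (χ : DirichletCharacter ℂ q) {κ : ℝ} (hκ : 0 < κ) (s : ℂ) :
    mol (bb χ κ) ⌊(q : ℝ) ^ (κ / 2)⌋₊ s =
      mol (fun n => χ (n : ZMod q) * ((ArithmeticFunction.moebius n : ℤ) : ℂ))
        ⌊(q : ℝ) ^ (κ / 2)⌋₊ s := by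
  unfold mol
  refine sum_congr rfl fun l hl => ?_
  rw [mem_Icc] at hl
  have h1 : (l : ℝ) ≤ (q : ℝ) ^ (κ / 2) := (Nat.le_floor_iff (by positivity)).1 hl.2
  have h2 := (mw_comb (q := q) (by exact_mod_cast hq) hκ l).2 h1
  unfold bb
  rw [h2]
  push_cast
  ring

/-- far to the right the mollified function is close to one -/
lemma right_bd : ∃ c : ℝ, 1 ≤ c ∧ ∀ (q : ℕ) [NeZero q], 1 < q → ∀ (χ : DirichletCharacter ℂ q)
    (κ : ℝ), 0 < κ → ∀ s : ℂ, 11 ≤ s.re →
    ‖χ.LFunction s * MP χ κ s - 1‖ ≤ c * Real.exp (-(9 / 2 * κ * Real.log q)) := by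
  obtain ⟨c1, hc1, h1⟩ := lser_tail
  obtain ⟨c2, hc2, h2⟩ := mol_inv
  refine ⟨(c2 + c1 * (2 * c1)) * 512, by nlinarith, ?_⟩
  intro q _ hq χ κ hκ s hs
  have hq1 : (1 : ℝ) ≤ q := by exact_mod_cast hq.le
  have hq0 : (0 : ℝ) < q := by linarith
  have hle : (q : ℝ) ^ (κ / 2) ≤ (q : ℝ) ^ κ :=
    Real.rpow_le_rpow_of_exponent_le hq1 (by linarith)
  have hX1 : 1 ≤ (q : ℝ) ^ (κ / 2) := Real.one_le_rpow hq1 (by linarith)
  obtain ⟨Y, hY⟩ : ∃ Y : ℕ, Y = ⌊(q : ℝ) ^ (κ / 2)⌋₊ := ⟨_, rfl⟩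
  obtain ⟨Y1, hY1⟩ : ∃ Y1 : ℕ, Y1 = ⌊(q : ℝ) ^ κ⌋₊ := ⟨_, rfl⟩
  have hY0 : 1 ≤ Y := by
    rw [hY]
    exact (Nat.one_le_floor_iff _).2 hX1
  have hYY : Y ≤ Y1 := by rw [hY, hY1]; exact Nat.floor_mono hle
  have hY' : (1 : ℝ) ≤ Y := by exact_mod_cast hY0
  have hYY' : (Y : ℝ) ≤ Y1 := by exact_mod_cast hYY
  obtain ⟨w, hw⟩ : ∃ w : ℝ, w = (Y : ℝ) ^ (2 - s.re) := ⟨_, rfl⟩
  have hw0 : 0 ≤ w := by rw [hw]; positivity
  have a1 := h1 (fun n => χ (n : ZMod q)) (fun n => χ.norm_le_one _) s (by linarith)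
  have a2 := h1 (bb χ κ) (bb_norm hq χ hκ) s (by linarith)
  have a3 := a2.2 Y hY0
  have a4 := a2.2 Y1 (hY0.trans hYY)
  have a5 : (Y1 : ℝ) ^ (2 - s.re) ≤ w := by
    rw [hw]
    exact Real.rpow_le_rpow_of_nonpos (by linarith) hYY' (by linarith)
  have a6 := h2 (fun n => χ (n : ZMod q))
    (fun n => χ (n : ZMod q) * ((ArithmeticFunction.moebius n : ℤ) : ℂ))
    (fun n => χ.norm_le_one _) (by
      intro n
      rw [norm_mul, Complex.norm_intCast]
      have : |((ArithmeticFunction.moebius n : ℤ) : ℝ)| ≤ 1 := by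
        have := ArithmeticFunction.abs_moebius_le_one (n := n)
        exact_mod_cast this
      calc _ ≤ (1 : ℝ) * 1 := mul_le_mul (χ.norm_le_one _) this (abs_nonneg _) zero_le_one
        _ = 1 := one_mul _) s (by linarith)
    (DirichletCharacter.LSeries.mul_mu_eq_one χ (by linarith)) Y hY0
  have a7 := mol_bb hq χ hκ s
  rw [← hY] at a7
  rw [← a7, ← hw] at a6
  rw [← hw] at a3
  have hL : χ.LFunction s = LSeries (fun n => χ (n : ZMod q)) s :=
    DirichletCharacter.LFunction_eq_LSeries χ (by linarith)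
  have e : χ.LFunction s * MP χ κ s - 1 =
      (LSeries (fun n => χ (n : ZMod q)) s * mol (bb χ κ) Y s - 1) +
      LSeries (fun n => χ (n : ZMod q)) s *
        ((mol (bb χ κ) Y1 s - LSeries (bb χ κ) s) - (mol (bb χ κ) Y s - LSeries (bb χ κ) s)) := by
    rw [MP_eq hq χ hκ, hL, ← hY1]
    ring
  have a8 : ‖(mol (bb χ κ) Y1 s - LSeries (bb χ κ) s) - (mol (bb χ κ) Y s - LSeries (bb χ κ) s)‖ ≤
      2 * c1 * w := by
    refine (norm_sub_le _ _).trans ?_
    have : c1 * (Y1 : ℝ) ^ (2 - s.re) ≤ c1 * w := mul_le_mul_of_nonneg_left a5 (by linarith)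
    linarith
  have a9 : ‖χ.LFunction s * MP χ κ s - 1‖ ≤ (c2 + c1 * (2 * c1)) * w := by
    rw [e]
    refine (norm_add_le _ _).trans ?_
    rw [norm_mul]
    have : ‖LSeries (fun n => χ (n : ZMod q)) s‖ *
        ‖(mol (bb χ κ) Y1 s - LSeries (bb χ κ) s) - (mol (bb χ κ) Y s - LSeries (bb χ κ) s)‖ ≤
        c1 * (2 * c1 * w) := mul_le_mul a1.1 a8 (norm_nonneg _) (by linarith)
    linarith
  have hwle : w ≤ 512 * Real.exp (-(9 / 2 * κ * Real.log q)) := by
    have b1 : (q : ℝ) ^ (κ / 2) / 2 ≤ Y := by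
      have b2 := Nat.lt_floor_add_one ((q : ℝ) ^ (κ / 2))
      rw [← hY] at b2
      linarith
    have b3 : w ≤ (Y : ℝ) ^ (-(9 : ℝ)) := by
      rw [hw]
      exact Real.rpow_le_rpow_of_exponent_le hY' (by linarith)
    have b4 : (Y : ℝ) ^ (-(9 : ℝ)) ≤ ((q : ℝ) ^ (κ / 2) / 2) ^ (-(9 : ℝ)) :=
      Real.rpow_le_rpow_of_nonpos (by positivity) b1 (by norm_num)
    have b5 : ((q : ℝ) ^ (κ / 2) / 2) ^ (-(9 : ℝ)) =
        512 * Real.exp (-(9 / 2 * κ * Real.log q)) := by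
      rw [Real.div_rpow (by positivity) (by norm_num), ← Real.rpow_mul hq0.le,
        Real.rpow_def_of_pos hq0, Real.rpow_neg (by norm_num : (0 : ℝ) ≤ 2)]
      have b6 : (2 : ℝ) ^ (9 : ℝ) = 512 := by
        rw [show (9 : ℝ) = ((9 : ℕ) : ℝ) by norm_num, Real.rpow_natCast]
        norm_num
      rw [b6, div_inv_eq_mul, mul_comm]
      congr 2
      ring
    exact b3.trans (b4.trans b5.le)
  calc _ ≤ (c2 + c1 * (2 * c1)) * w := a9
    _ ≤ (c2 + c1 * (2 * c1)) * (512 * Real.exp (-(9 / 2 * κ * Real.log q))) := by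
        have : 0 ≤ c2 + c1 * (2 * c1) := by nlinarith
        gcongr
    _ = _ := by ring

/-- the trivial bound -/
lemma triv_bd {q : ℕ} [NeZero q] (hq : 1 < q) {ψ : DirichletCharacter ℂ q} (hψ : ψ ≠ 1) {κ : ℝ}
    (hκ : 0 < κ) (hκ1 : κ ≤ 1) {s : ℂ} (hs : 1 / 2 ≤ s.re) (hs2 : s.re ≤ 12) :
    ‖ψ.LFunction s * MP ψ κ s - 1‖ ≤ 156 * (1 + |s.im|) * (q : ℝ) ^ 2 := by
  have hq1 : (1 : ℝ) ≤ q := by exact_mod_cast hq.le
  have h1 := Pool.Agent.Y907.R11.lb hψ (s := s) (by linarith)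
  have h2 : ‖MP ψ κ s‖ ≤ q := by
    rw [MP_eq hq ψ hκ]
    refine (mol_norm (bb_norm hq ψ hκ) _ (by linarith)).trans ?_
    calc _ ≤ (q : ℝ) ^ κ := Nat.floor_le (by positivity)
      _ ≤ (q : ℝ) ^ (1 : ℝ) := Real.rpow_le_rpow_of_exponent_le hq1 hκ1
      _ = q := Real.rpow_one _
  have h3 : ‖s‖ ≤ 12 + |s.im| := by
    refine (Complex.norm_le_abs_re_add_abs_im s).trans ?_
    rw [abs_of_nonneg (by linarith)]
    linarith
  have h4 : 0 ≤ |s.im| := abs_nonneg _
  calc ‖ψ.LFunction s * MP ψ κ s - 1‖ ≤ ‖ψ.LFunction s * MP ψ κ s‖ + ‖(1 : ℂ)‖ := norm_sub_le _ _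
    _ = ‖ψ.LFunction s‖ * ‖MP ψ κ s‖ + 1 := by rw [norm_mul, norm_one]
    _ ≤ (1 + 10 * (12 + |s.im|)) * q * q + 1 := by
        have : ‖ψ.LFunction s‖ ≤ (1 + 10 * (12 + |s.im|)) * q := h1.trans (by gcongr)
        gcongr
    _ ≤ (1 + 10 * (12 + |s.im|)) * q * q + (q : ℝ) ^ 2 := by
        have : (1 : ℝ) ≤ (q : ℝ) ^ 2 := by nlinarith
        linarith
    _ = (122 + 10 * |s.im|) * (q : ℝ) ^ 2 := by ring
    _ ≤ 156 * (1 + |s.im|) * (q : ℝ) ^ 2 := by
        have : 122 + 10 * |s.im| ≤ 156 * (1 + |s.im|) := by linarith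
        gcongr

lemma norm_gs (K : ℝ) (z s : ℂ) : ‖Complex.exp (K * (z - s) ^ 2)‖ =
    Real.exp (K * (z.re - s.re) ^ 2) * Real.exp (-(K * (z.im - s.im) ^ 2)) := by
  rw [Complex.norm_exp, ← Real.exp_add]
  congr 1
  rw [sq, Complex.re_ofReal_mul, Complex.mul_re, Complex.sub_re, Complex.sub_im]
  ring

theorem fmx (h : S_FM1) : S_FMX := by
  intro δ hδ
  obtain ⟨κ, hκ0, hκ1, hκ⟩ := h δ hδ
  refine ⟨κ, hκ0, hκ1, ?_⟩
  intro T Λ hΛ
  obtain ⟨η, hη⟩ : ∃ η : ℝ, η = κ / 4000 := ⟨_, rfl⟩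
  have hη0 : 0 < η := by rw [hη]; positivity
  have hη1 : η ≤ 1 := by rw [hη]; linarith
  obtain ⟨H, hH⟩ : ∃ H : ℝ, H = 12 / η := ⟨_, rfl⟩
  have hH0 : 0 < H := by rw [hH]; positivity
  have hHη : 12 ≤ η * H ^ 2 := by
    have h1 : η * H ^ 2 = 144 / η := by
      rw [hH]
      field_simp
      norm_num
    rw [h1, le_div_iff₀ hη0]
    linarith
  obtain ⟨C0, c0, hC0, hc0, hfm⟩ := hκ (T + H) Λ hΛ
  obtain ⟨CI, hCI, hI⟩ := interp_sum 0 11 (by norm_num)
  obtain ⟨CR, hCR, hR⟩ := right_bd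
  obtain ⟨D, hD⟩ : ∃ D : ℝ, D = C0 + 100000 * (1 + |T|) ^ 2 + CR ^ 2 := ⟨_, rfl⟩
  have hT0 : 0 ≤ |T| := abs_nonneg T
  have hD0 : 0 < D := by rw [hD]; positivity
  refine ⟨C0 * Real.exp (c0 * Λ) + CI * D, min c0 (κ / 200), by positivity, by positivity, ?_⟩
  intro p hpF hp7
  obtain ⟨ν1, hν1⟩ := hfm p hp7
  obtain ⟨ν2, hν2⟩ := exists_nat_ge (1 / η)
  refine ⟨ν1 + ν2 + 1, ?_⟩
  intro ν m hmν hν hm χ hχ s hs1 hs2 hs3
  have hp0 : (0 : ℝ) < p := by exact_mod_cast hpF.out.pos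
  have hp7' : (7 : ℝ) ≤ p := by exact_mod_cast hp7
  have hlogp : 1 ≤ Real.log p := by
    rw [← Real.log_exp 1]
    apply Real.log_le_log (Real.exp_pos _)
    linarith [Real.exp_one_lt_d9]
  have hν1' : (1 : ℝ) ≤ ν := by
    have : 1 ≤ ν := by omega
    exact_mod_cast this
  obtain ⟨L, hLdef⟩ : ∃ L : ℝ, L = ν * Real.log p := ⟨_, rfl⟩
  rw [← hLdef] at hs1 ⊢
  have hL1 : 1 ≤ L := by rw [hLdef]; exact one_le_mul_of_one_le_of_one_le hν1' hlogp
  have hL0 : 0 < L := by linarith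
  have hKL : 1 ≤ η * L := by
    have h1 : (ν2 : ℝ) ≤ ν := by
      have : ν2 ≤ ν := by omega
      exact_mod_cast this
    have h2 : 1 / η ≤ ν := hν2.trans h1
    have h3 : 1 ≤ η * ν := by
      rw [div_le_iff₀ hη0] at h2
      linarith
    calc (1 : ℝ) ≤ η * ν := h3
      _ = η * (ν * 1) := by ring
      _ ≤ η * (ν * Real.log p) := by gcongr
      _ = _ := by rw [hLdef]
  have hlogq : Real.log ((p : ℝ) ^ ν) = L := by rw [Real.log_pow, hLdef]
  have hq1 : 1 < p ^ ν := Nat.one_lt_pow (by omega) hpF.out.one_lt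
  have hcast : ((p ^ ν : ℕ) : ℝ) = (p : ℝ) ^ ν := by push_cast; rfl
  have hlogq' : Real.log ((p ^ ν : ℕ) : ℝ) = L := by rw [hcast, hlogq]
  have hqL : ((p ^ ν : ℕ) : ℝ) = Real.exp L := by
    rw [← hlogq', Real.exp_log]
    exact_mod_cast Nat.pos_of_ne_zero (by omega)
  have hpm0 : (0 : ℝ) < (p : ℝ) ^ m := by positivity
  have hmin1 : min c0 (κ / 200) ≤ c0 := min_le_left _ _
  have hmin2 : min c0 (κ / 200) ≤ κ / 200 := min_le_right _ _
  have hmin0 : 0 < min c0 (κ / 200) := by positivity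
  obtain ⟨c, hc⟩ : ∃ c : ℝ, c = min c0 (κ / 200) := ⟨_, rfl⟩
  rw [← hc] at hmin1 hmin2 hmin0 ⊢
  by_cases hs34 : s.re ≤ 3 / 4
  · -- the strip of the mean square theorem
    have h1 := hν1 ν m hmν (by omega) hm χ hχ s ⟨by rw [hlogq]; exact hs1, hs34,
      hs3.trans (by linarith)⟩
    rw [← hLdef] at h1
    refine h1.trans ?_
    apply mul_le_mul_of_nonneg_right _ hpm0.le
    have h2 : C0 * Real.exp (-c0 * (s.re - 1 / 2) * L) ≤
        C0 * Real.exp (c0 * Λ) * Real.exp (-c * (s.re - 1 / 2) * L) := by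
      rw [mul_assoc C0 (Real.exp (c0 * Λ)), ← Real.exp_add]
      apply mul_le_mul_of_nonneg_left _ hC0.le
      apply Real.exp_le_exp.2
      rcases le_total (1 / 2) s.re with h3 | h3
      · have h4 : c * ((s.re - 1 / 2) * L) ≤ c0 * ((s.re - 1 / 2) * L) :=
          mul_le_mul_of_nonneg_right hmin1 (mul_nonneg (by linarith) hL0.le)
        have h5 : 0 ≤ c0 * Λ := by positivity
        linarith
      · have h4 : 0 ≤ (1 / 2 - s.re) * L := mul_nonneg (by linarith) hL0.le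
        have h5 : (1 / 2 - s.re) * L ≤ Λ := by
          have h6 : 1 / 2 - s.re ≤ Λ / L := by linarith
          calc _ ≤ Λ / L * L := mul_le_mul_of_nonneg_right h6 hL0.le
            _ = Λ := by field_simp
        have h7 : c0 * ((1 / 2 - s.re) * L) ≤ c0 * Λ := mul_le_mul_of_nonneg_left h5 hc0.le
        have h8 : 0 ≤ c * ((1 / 2 - s.re) * L) := mul_nonneg hmin0.le h4
        linarith
    refine h2.trans ?_
    apply mul_le_mul_of_nonneg_right _ (Real.exp_pos _).le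
    have : 0 ≤ CI * D := by positivity
    linarith
  -- interpolation
  push Not at hs34
  obtain ⟨K, hK⟩ : ∃ K : ℝ, K = η * L := ⟨_, rfl⟩
  rw [← hK] at hKL
  have hK0 : 0 < K := by linarith
  obtain ⟨ψ, hψ⟩ : ∃ ψ : DirichletCharacter ℂ (p ^ m) → DirichletCharacter ℂ (p ^ ν),
    ψ = fun θ => χ * DirichletCharacter.changeLevel (pow_dvd_pow p hmν.le) θ := ⟨_, rfl⟩
  have hψ1 : ∀ θ, ψ θ ≠ 1 := by
    intro θ h1
    have h2 : (ψ θ).IsPrimitive := by
      rw [hψ]
      exact Pool.Agent.Y766.R3.prim_mul hpF.out hmν hχ θ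
    rw [h1, DirichletCharacter.isPrimitive_def, DirichletCharacter.conductor_one]
      at h2
    omega
  obtain ⟨f, hf⟩ : ∃ f : DirichletCharacter ℂ (p ^ m) → ℂ → ℂ,
    f = fun θ z => (ψ θ).LFunction z * MP (ψ θ) κ z - 1 := ⟨_, rfl⟩
  have hfd : ∀ θ, Differentiable ℂ (f θ) := by
    intro θ
    have h1 : MP (ψ θ) κ = mol (bb (ψ θ) κ) ⌊((p ^ ν : ℕ) : ℝ) ^ κ⌋₊ := by
      funext z
      exact MP_eq hq1 (ψ θ) hκ0 z
    rw [hf]
    simp only [h1]
    exact ((DirichletCharacter.differentiable_LFunction (hψ1 θ)).mul (mol_diff _ _)).sub_const 1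
  obtain ⟨G, hG⟩ : ∃ G : DirichletCharacter ℂ (p ^ m) → ℂ → ℂ,
    G = fun θ z => f θ (z + 1 / 8) ^ 2 * Complex.exp (K * ((z + 1 / 8) - s) ^ 2) := ⟨_, rfl⟩
  obtain ⟨B, hB⟩ : ∃ B : ℝ, B = D * Real.exp (110 * K) * (p : ℝ) ^ m := ⟨_, rfl⟩
  have hB0 : 0 < B := by rw [hB]; positivity
  have hre : ∀ z : ℂ, (z + 1 / 8).re = z.re + 1 / 8 := by
    intro z
    rw [Complex.add_re]
    norm_num
  have him : ∀ z : ℂ, (z + 1 / 8).im = z.im := by
    intro z
    rw [Complex.add_im]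
    norm_num
  have hGn : ∀ θ z, ‖G θ z‖ = ‖f θ (z + 1 / 8)‖ ^ 2 *
      (Real.exp (K * (z.re + 1 / 8 - s.re) ^ 2) * Real.exp (-(K * (z.im - s.im) ^ 2))) := by
    intro θ z
    rw [hG]
    simp only
    rw [norm_mul, norm_pow, norm_gs, hre, him]
  have hexp1 : ∀ z : ℂ, 1 / 2 ≤ z.re → z.re ≤ 11 →
      Real.exp (K * (z.re + 1 / 8 - s.re) ^ 2) ≤ Real.exp (110 * K) := by
    intro z h1 h2
    apply Real.exp_le_exp.2
    have h3 : |z.re + 1 / 8 - s.re| ≤ 52 / 5 := by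
      rw [abs_le]; constructor <;> linarith
    have h4 : (z.re + 1 / 8 - s.re) ^ 2 ≤ 110 := by
      rw [← sq_abs]
      calc _ ≤ (52 / 5 : ℝ) ^ 2 := pow_le_pow_left₀ (abs_nonneg _) h3 2
        _ ≤ 110 := by norm_num
    calc K * (z.re + 1 / 8 - s.re) ^ 2 ≤ K * 110 := by gcongr
      _ = _ := mul_comm _ _
  have hftriv : ∀ θ, ∀ z : ℂ, 1 / 2 ≤ z.re → z.re ≤ 11 →
      ‖f θ (z + 1 / 8)‖ ≤ 156 * (1 + |z.im|) * Real.exp L ^ 2 := by
    intro θ z h1 h2
    have h3 := triv_bd hq1 (hψ1 θ) hκ0 (by linarith) (s := z + 1 / 8) (by rw [hre]; linarith)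
      (by rw [hre]; linarith)
    rw [him, hqL] at h3
    rw [hf]
    exact h3
  have hcard : ((univ : Finset (DirichletCharacter ℂ (p ^ m))).card : ℝ) ≤ (p : ℝ) ^ m := by
    rw [card_univ]
    have e1 := DirichletCharacter.card_eq_totient_of_hasEnoughRootsOfUnity ℂ (p ^ m)
    rw [← Nat.card_eq_fintype_card, e1]
    exact_mod_cast Nat.totient_le (p ^ m)
  have key := hI (univ : Finset (DirichletCharacter ℂ (p ^ m))) G B
    (B * Real.exp (-(8 * κ * L))) hB0 (by positivity) ?_ ?_ ?_ ?_ (s - 1 / 8) ?_ ?_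
  · -- the conclusion
    have hz : s - 1 / 8 + 1 / 8 = s := by ring
    have e1 : ∀ θ, ‖G θ (s - 1 / 8)‖ = ‖f θ s‖ ^ 2 := by
      intro θ
      rw [hG]
      simp only
      rw [hz, sub_self]
      norm_num
    have hre2 : (s - 1 / 8).re = s.re - 1 / 8 := by
      rw [Complex.sub_re]
      norm_num
    rw [sum_congr rfl fun θ _ => e1 θ, hre2, pow_zero, mul_one] at key
    obtain ⟨x, hx⟩ : ∃ x : ℝ, x = (s.re - 1 / 8 - 1 / 2) / (11 - 1 / 2) := ⟨_, rfl⟩
    rw [← hx] at key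
    have hx1 : 1 / 84 ≤ x := by
      rw [hx, le_div_iff₀ (by norm_num)]
      linarith
    have e2 : B ^ (1 - x) * (B * Real.exp (-(8 * κ * L))) ^ x = B * Real.exp (-(8 * κ * L) * x) := by
      rw [Real.mul_rpow hB0.le (Real.exp_pos _).le, ← mul_assoc, ← Real.rpow_add hB0,
        ← Real.exp_mul]
      have : 1 - x + x = 1 := by ring
      rw [this, Real.rpow_one]
    rw [e2] at key
    have e3 : B * Real.exp (-(8 * κ * L) * x) ≤
        D * Real.exp (-c * (s.re - 1 / 2) * L) * (p : ℝ) ^ m := by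
      have h1 : Real.exp (110 * K) * Real.exp (-(8 * κ * L) * x) ≤
          Real.exp (-c * (s.re - 1 / 2) * L) := by
        rw [← Real.exp_add]
        apply Real.exp_le_exp.2
        have hκL : 0 < κ * L := by positivity
        have h2 : 110 * K = 110 / 4000 * (κ * L) := by rw [hK, hη]; ring
        have h3 : (κ * L) * (1 / 84) ≤ (κ * L) * x := by gcongr
        have h4 : c * ((s.re - 1 / 2) * L) ≤ κ / 200 * (10 * L) := by
          apply mul_le_mul hmin2 _ (mul_nonneg (by linarith) hL0.le) (by positivity)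
          apply mul_le_mul_of_nonneg_right (by linarith) hL0.le
        linarith only [h2, h3, h4, hκL]
      calc B * Real.exp (-(8 * κ * L) * x) =
            D * (Real.exp (110 * K) * Real.exp (-(8 * κ * L) * x)) * (p : ℝ) ^ m := by
              rw [hB]; ring
        _ ≤ _ := by gcongr
    have e4 : ∀ θ, ‖(χ * DirichletCharacter.changeLevel (pow_dvd_pow p hmν.le) θ).LFunction s *
        MP (χ * DirichletCharacter.changeLevel (pow_dvd_pow p hmν.le) θ) κ s - 1‖ ^ 2 =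
        ‖f θ s‖ ^ 2 := by
      intro θ
      rw [hf, hψ]
    rw [sum_congr rfl fun θ _ => e4 θ]
    refine key.trans ?_
    calc CI * (B * Real.exp (-(8 * κ * L) * x)) ≤
          CI * (D * Real.exp (-c * (s.re - 1 / 2) * L) * (p : ℝ) ^ m) := by gcongr
      _ = (CI * D) * Real.exp (-c * (s.re - 1 / 2) * L) * (p : ℝ) ^ m := by ring
      _ ≤ _ := by
          have : 0 < C0 * Real.exp (c0 * Λ) := by positivity
          gcongr
          linarith
  · -- differentiability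
    intro θ _ z _
    rw [hG]
    have h1 : DifferentiableAt ℂ (fun w : ℂ => f θ (w + 1 / 8)) z :=
      ((hfd θ).comp (differentiable_id.add_const (1 / 8 : ℂ))).differentiableAt
    have h2 : DifferentiableAt ℂ (fun w : ℂ => Complex.exp (K * ((w + 1 / 8) - s) ^ 2)) z := by
      fun_prop
    exact (h1.pow 2).mul h2
  · -- growth
    intro θ _
    refine ⟨(156 * Real.exp L ^ 2) ^ 2 * Real.exp (110 * K), 2, ?_⟩
    intro z h1 h2
    rw [hGn]
    have h3 := hftriv θ z h1 h2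
    have h4 := hexp1 z h1 h2
    have h5 : Real.exp (-(K * (z.im - s.im) ^ 2)) ≤ 1 := by
      rw [Real.exp_le_one_iff]
      have : 0 ≤ K * (z.im - s.im) ^ 2 := by positivity
      linarith
    calc _ ≤ (156 * (1 + |z.im|) * Real.exp L ^ 2) ^ 2 * (Real.exp (110 * K) * 1) := by gcongr
      _ = _ := by ring
  · -- the left line
    intro z hz
    rw [pow_zero, mul_one]
    by_cases hfar : |z.im - s.im| ≤ H
    · have h1 := hν1 ν m hmν (by omega) hm χ hχ (z + 1 / 8)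
        ⟨by rw [hre, hz, hlogq]; have : 0 < Λ / L := by positivity
            linarith, by rw [hre, hz]; norm_num, by
          rw [him]
          calc |z.im| = |s.im + (z.im - s.im)| := by ring_nf
            _ ≤ |s.im| + |z.im - s.im| := abs_add_le _ _
            _ ≤ T + H := by linarith⟩
      rw [← hLdef] at h1
      have h2 : ∑ θ, ‖f θ (z + 1 / 8)‖ ^ 2 ≤ C0 * (p : ℝ) ^ m := by
        have e4 : ∀ θ, ‖f θ (z + 1 / 8)‖ ^ 2 =
            ‖(χ * DirichletCharacter.changeLevel (pow_dvd_pow p hmν.le) θ).LFunction (z + 1 / 8) *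
            MP (χ * DirichletCharacter.changeLevel (pow_dvd_pow p hmν.le) θ) κ (z + 1 / 8) - 1‖
              ^ 2 := by
          intro θ
          rw [hf, hψ]
        rw [sum_congr rfl fun θ _ => e4 θ]
        refine h1.trans ?_
        have h3 : Real.exp (-c0 * ((z + 1 / 8).re - 1 / 2) * L) ≤ 1 := by
          rw [Real.exp_le_one_iff, hre, hz]
          have : 0 < c0 * L := by positivity
          linarith
        calc _ ≤ C0 * 1 * (p : ℝ) ^ m := by gcongr
          _ = _ := by ring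
      calc ∑ θ, ‖G θ z‖ ≤ ∑ θ, ‖f θ (z + 1 / 8)‖ ^ 2 * Real.exp (110 * K) := by
            refine sum_le_sum fun θ _ => ?_
            rw [hGn]
            have h4 := hexp1 z hz.ge (by rw [hz]; norm_num)
            have h5 : Real.exp (-(K * (z.im - s.im) ^ 2)) ≤ 1 := by
              rw [Real.exp_le_one_iff]
              have : 0 ≤ K * (z.im - s.im) ^ 2 := by positivity
              linarith
            calc _ ≤ ‖f θ (z + 1 / 8)‖ ^ 2 * (Real.exp (110 * K) * 1) := by gcongr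
              _ = _ := by ring
        _ = (∑ θ, ‖f θ (z + 1 / 8)‖ ^ 2) * Real.exp (110 * K) := by rw [sum_mul]
        _ ≤ (C0 * (p : ℝ) ^ m) * Real.exp (110 * K) := by gcongr
        _ = C0 * Real.exp (110 * K) * (p : ℝ) ^ m := by ring
        _ ≤ B := by
            rw [hB]
            have : C0 ≤ D := by
              have : 0 ≤ 100000 * (1 + |T|) ^ 2 + CR ^ 2 := by positivity
              linarith only [hD, this]
            gcongr
    · push Not at hfar
      obtain ⟨y, hy⟩ : ∃ y : ℝ, y = |z.im - s.im| := ⟨_, rfl⟩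
      rw [← hy] at hfar
      have hy0 : 0 ≤ y := by rw [hy]; exact abs_nonneg _
      have hy2 : (z.im - s.im) ^ 2 = y ^ 2 := by rw [hy, sq_abs]
      have hzT : 1 + |z.im| ≤ (1 + |T|) * (1 + y) := by
        have h1 : |z.im| ≤ |s.im| + y := by
          calc |z.im| = |s.im + (z.im - s.im)| := by ring_nf
            _ ≤ |s.im| + |z.im - s.im| := abs_add_le _ _
            _ = _ := by rw [hy]
        have h2 : |s.im| ≤ |T| := hs3.trans (le_abs_self T)
        have h3 : 0 ≤ |T| * y := mul_nonneg hT0 hy0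
        linarith only [h1, h2, h3]
      have hpt : ∀ θ, ‖G θ z‖ ≤ 100000 * (1 + |T|) ^ 2 * Real.exp (110 * K) := by
        intro θ
        rw [hGn, hy2]
        have h3 := hftriv θ z hz.ge (by rw [hz]; norm_num)
        have h4 := hexp1 z hz.ge (by rw [hz]; norm_num)
        have h5 : (1 + y) ^ 2 ≤ 4 * Real.exp (K * y ^ 2 / 2) := by
          have h6 := Real.add_one_le_exp (K * y ^ 2 / 2)
          have h7 : 1 * y ^ 2 ≤ K * y ^ 2 := mul_le_mul_of_nonneg_right hKL (sq_nonneg y)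
          have h8 := sq_nonneg (y - 1)
          linarith only [h6, h7, h8]
        have h6 : Real.exp L ^ 4 * Real.exp (-(K * y ^ 2 / 2)) ≤ 1 := by
          rw [← Real.exp_nat_mul, ← Real.exp_add, Real.exp_le_one_iff]
          have h7 : H ^ 2 ≤ y ^ 2 := pow_le_pow_left₀ hH0.le hfar.le 2
          have h8 : 12 * L ≤ K * y ^ 2 := by
            calc 12 * L ≤ η * H ^ 2 * L := by gcongr
              _ ≤ η * y ^ 2 * L := by gcongr
              _ = K * y ^ 2 := by rw [hK]; ring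
          push_cast
          linarith
        have h9 : Real.exp (-(K * y ^ 2)) =
            Real.exp (-(K * y ^ 2 / 2)) * Real.exp (-(K * y ^ 2 / 2)) := by
          rw [← Real.exp_add]
          congr 1
          ring
        have h10 : Real.exp (K * y ^ 2 / 2) * Real.exp (-(K * y ^ 2 / 2)) = 1 := by
          rw [← Real.exp_add, add_neg_cancel, Real.exp_zero]
        calc _ ≤ (156 * ((1 + |T|) * (1 + y)) * Real.exp L ^ 2) ^ 2 *
              (Real.exp (110 * K) * Real.exp (-(K * y ^ 2))) := by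
                have : ‖f θ (z + 1 / 8)‖ ≤ 156 * ((1 + |T|) * (1 + y)) * Real.exp L ^ 2 :=
                  h3.trans (by gcongr)
                gcongr
          _ = 24336 * (1 + |T|) ^ 2 * Real.exp (110 * K) * (1 + y) ^ 2 *
              (Real.exp L ^ 4 * Real.exp (-(K * y ^ 2 / 2))) * Real.exp (-(K * y ^ 2 / 2)) := by
                rw [h9]; ring
          _ ≤ 24336 * (1 + |T|) ^ 2 * Real.exp (110 * K) * (4 * Real.exp (K * y ^ 2 / 2)) *
              1 * Real.exp (-(K * y ^ 2 / 2)) := by gcongr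
          _ = 97344 * (1 + |T|) ^ 2 * Real.exp (110 * K) *
              (Real.exp (K * y ^ 2 / 2) * Real.exp (-(K * y ^ 2 / 2))) := by ring
          _ ≤ _ := by
              rw [h10, mul_one]
              gcongr
              norm_num
      calc ∑ θ, ‖G θ z‖ ≤ ∑ θ : DirichletCharacter ℂ (p ^ m),
            100000 * (1 + |T|) ^ 2 * Real.exp (110 * K) := sum_le_sum fun θ _ => hpt θ
        _ = (univ : Finset (DirichletCharacter ℂ (p ^ m))).card *
            (100000 * (1 + |T|) ^ 2 * Real.exp (110 * K)) := by rw [sum_const, nsmul_eq_mul]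
        _ ≤ (p : ℝ) ^ m * (100000 * (1 + |T|) ^ 2 * Real.exp (110 * K)) := by gcongr
        _ = 100000 * (1 + |T|) ^ 2 * Real.exp (110 * K) * (p : ℝ) ^ m := by ring
        _ ≤ B := by
            rw [hB]
            have : 100000 * (1 + |T|) ^ 2 ≤ D := by
              have : 0 ≤ CR ^ 2 := by positivity
              linarith only [hD, this, hC0]
            gcongr
  · -- the right line
    intro z hz
    have hpt : ∀ θ, ‖G θ z‖ ≤ CR ^ 2 * Real.exp (-(8 * κ * L)) * Real.exp (110 * K) := by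
      intro θ
      rw [hGn]
      have h1 := hR (p ^ ν) hq1 (ψ θ) κ hκ0 (z + 1 / 8) (by rw [hre, hz]; norm_num)
      rw [hlogq'] at h1
      have h2 : ‖f θ (z + 1 / 8)‖ ≤ CR * Real.exp (-(9 / 2 * κ * L)) := by
        rw [hf]
        exact h1
      have h4 := hexp1 z (by rw [hz]; norm_num) hz.le
      have h5 : Real.exp (-(K * (z.im - s.im) ^ 2)) ≤ 1 := by
        rw [Real.exp_le_one_iff]
        have : 0 ≤ K * (z.im - s.im) ^ 2 := by positivity
        linarith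
      have h6 : Real.exp (-(9 / 2 * κ * L)) ^ 2 ≤ Real.exp (-(8 * κ * L)) := by
        rw [← Real.exp_nat_mul]
        apply Real.exp_le_exp.2
        push_cast
        have : 0 < κ * L := by positivity
        linarith
      calc _ ≤ (CR * Real.exp (-(9 / 2 * κ * L))) ^ 2 * (Real.exp (110 * K) * 1) := by gcongr
        _ = CR ^ 2 * Real.exp (-(9 / 2 * κ * L)) ^ 2 * Real.exp (110 * K) := by ring
        _ ≤ _ := by gcongr
    calc ∑ θ, ‖G θ z‖ ≤ ∑ θ : DirichletCharacter ℂ (p ^ m),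
          CR ^ 2 * Real.exp (-(8 * κ * L)) * Real.exp (110 * K) := sum_le_sum fun θ _ => hpt θ
      _ = (univ : Finset (DirichletCharacter ℂ (p ^ m))).card *
          (CR ^ 2 * Real.exp (-(8 * κ * L)) * Real.exp (110 * K)) := by
            rw [sum_const, nsmul_eq_mul]
      _ ≤ (p : ℝ) ^ m * (CR ^ 2 * Real.exp (-(8 * κ * L)) * Real.exp (110 * K)) := by gcongr
      _ = CR ^ 2 * Real.exp (110 * K) * (p : ℝ) ^ m * Real.exp (-(8 * κ * L)) := by ring
      _ ≤ B * Real.exp (-(8 * κ * L)) := by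
          rw [hB]
          have : CR ^ 2 ≤ D := by
            have : 0 ≤ 100000 * (1 + |T|) ^ 2 := by positivity
            linarith only [hD, this, hC0]
          gcongr
  · rw [Complex.sub_re]
    norm_num
    linarith
  · rw [Complex.sub_re]
    norm_num
    linarith

end Pool.Agent.Y756.R11
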